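import Pool.Agent.Lib.MP_f77c7f_co.H25Inst
import Pool.Agent.Lib.MP_f77c7f_co.H25Growth

/-!
# A Stanley sequence of neither Type 1 nor Type 2
-/

open Filter

namespace Pool.Agent.Results.MP_f77c7f_co.Disproof

/-- `a 0 < a 1 < ⋯` is the Stanley sequence `S(A)`: its first `|A|` terms are the elements of
`A`, and every later term `a n` is the least integer `x > a (n - 1)` such that
`{a 0, …, a (n - 1), x}` has no three-term arithmetic progression. -/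
def IsStanley (A : Finset ℕ) (a : ℕ → ℕ) : Prop :=
  StrictMono a ∧ (Finset.range A.card).image a = A ∧
    ∀ n, A.card ≤ n →
      IsLeast {x | a (n - 1) < x ∧ ThreeAPFree (insert x (a '' Set.Iio n))} (a n)

/-- Type 1 growth: `α / 2 * n ^ log₂ 3 ≤ a n ≤ α * n ^ log₂ 3` for all large `n`. -/
def Type1 (a : ℕ → ℕ) : Prop :=
  ∃ α : ℝ, 0 < α ∧ ∀ᶠ n : ℕ in atTop,
    α / 2 * (n : ℝ) ^ Real.logb 2 3 ≤ a n ∧ (a n : ℝ) ≤ α * (n : ℝ) ^ Real.logb 2 3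

/-- Type 1 growth in the limit:
`α / 2 ≤ liminf a n / n ^ log₂ 3` and `limsup a n / n ^ log₂ 3 ≤ α`. -/
def Type1Limit (a : ℕ → ℕ) : Prop :=
  ∃ α : ℝ, 0 < α ∧ ∀ ε : ℝ, 0 < ε → ∀ᶠ n : ℕ in atTop,
    (α / 2 - ε) * (n : ℝ) ^ Real.logb 2 3 ≤ a n ∧ (a n : ℝ) ≤ (α + ε) * (n : ℝ) ^ Real.logb 2 3

/-- Type 2 growth: `a n = Θ (n ^ 2 / log n)`. -/
def Type2 (a : ℕ → ℕ) : Prop :=
  ∃ c C : ℝ, 0 < c ∧ c < C ∧ ∀ᶠ n : ℕ in atTop,
    c * ((n : ℝ) ^ 2 / Real.log n) ≤ a n ∧ (a n : ℝ) ≤ C * ((n : ℝ) ^ 2 / Real.log n)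

lemma IsStanley.unique {A : Finset ℕ} {a b : ℕ → ℕ} (h0 : 0 ∈ A) (ha : IsStanley A a)
    (hb : IsStanley A b) : b = a := by
  have key : ∀ f, IsStanley A f → (fun i : Fin A.card => f i) = A.orderEmbOfFin rfl := by
    intro f hf
    refine Finset.orderEmbOfFin_unique rfl (fun i => ?_) (fun i j hij => hf.1 hij)
    have := Finset.mem_image_of_mem f (Finset.mem_range.mpr i.2)
    rwa [hf.2.1] at this
  have hpos : 0 < A.card := Finset.card_pos.mpr ⟨0, h0⟩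
  funext n
  induction n using Nat.strong_induction_on with
  | _ n ih =>
    rcases lt_or_ge n A.card with h | h
    · exact congrFun ((key b hb).trans (key a ha).symm) ⟨n, h⟩
    · have h1 := hb.2.2 n h
      have h2 : b '' Set.Iio n = a '' Set.Iio n := Set.image_congr fun i hi => ih i hi
      rw [ih (n - 1) (by omega), h2] at h1
      exact h1.unique (ha.2.2 n h)

lemma Type1.limit {a : ℕ → ℕ} (h : Type1 a) : Type1Limit a := by
  obtain ⟨α, hα, h⟩ := h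
  refine ⟨α, hα, fun ε hε => h.mono fun n hn => ?_⟩
  have : 0 ≤ ε * (n : ℝ) ^ Real.logb 2 3 := by positivity
  constructor <;> nlinarith [hn.1, hn.2]

open Pool.Agent.Lib.MP_f77c7f_co in
theorem result : ∃ (A : Finset ℕ) (a : ℕ → ℕ), 0 ∈ A ∧ ThreeAPFree (A : Set ℕ) ∧
    IsStanley A a ∧ (∀ b, IsStanley A b → b = a) ∧
    ¬ Type1 a ∧ ¬ Type1Limit a ∧ ¬ Type2 a := by
  have h0 := DD.zero_mem_A DD_zero
  have hS : IsStanley DD.A DD.a := ⟨DD.a_strictMono, DD.image_a, DD.greedy⟩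
  obtain ⟨u, v, hu, huv, h1, h2⟩ := DD.growth DD_card
  have hpos : ∀ᶠ n : ℕ in atTop, 0 < (n : ℝ) ^ Real.logb 2 3 :=
    (eventually_gt_atTop 0).mono fun n hn => by positivity
  have hL : ¬ Type1Limit DD.a := by
    rintro ⟨α, -, h⟩
    have h3 := (h ((v - 2 * u) / 4) (by linarith)).and hpos
    obtain ⟨n, hn, hn', hp⟩ := (h1.and_eventually h3).exists
    obtain ⟨m, hm, hm', hq⟩ := (h2.and_eventually h3).exists
    have e1 := le_of_mul_le_mul_right (hn'.1.trans hn) hp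
    have e2 := le_of_mul_le_mul_right (hm.trans hm'.2) hq
    linarith
  refine ⟨DD.A, DD.a, h0, DD.A_free, hS, fun b hb => hS.unique h0 hb,
    fun h => hL h.limit, hL, ?_⟩
  rintro ⟨c, C, hc, -, h⟩
  have h4 : ∀ᶠ n : ℕ in atTop, ‖Real.log n‖ ≤ c / (2 * u) * ‖(n : ℝ) ^ (2 / 5 : ℝ)‖ :=
    tendsto_natCast_atTop_atTop.eventually
      ((isLittleO_log_rpow_atTop (by norm_num : (0 : ℝ) < 2 / 5)).def (by positivity))
  obtain ⟨n, hn, ⟨hn', -⟩, hl, hn2⟩ :=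
    (h1.and_eventually (h.and (h4.and (eventually_ge_atTop 2)))).exists
  have n1 : (1 : ℝ) < n := by exact_mod_cast hn2
  have l0 : 0 < Real.log n := Real.log_pos n1
  rw [Real.norm_of_nonneg l0.le, Real.norm_of_nonneg (by positivity)] at hl
  have e1 : (n : ℝ) ^ Real.logb 2 3 ≤ (n : ℝ) ^ (8 / 5 : ℝ) :=
    Real.rpow_le_rpow_of_exponent_le n1.le logb_le
  have e2 : (n : ℝ) ^ (8 / 5 : ℝ) * (n : ℝ) ^ (2 / 5 : ℝ) = (n : ℝ) ^ 2 := by
    rw [← Real.rpow_add (by linarith), ← Real.rpow_natCast]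
    norm_num
  have e3 : c * (n : ℝ) ^ 2 ≤ u * (n : ℝ) ^ (8 / 5 : ℝ) * Real.log n := by
    have := hn'.trans (hn.trans (mul_le_mul_of_nonneg_left e1 hu.le))
    rwa [← mul_div_assoc, div_le_iff₀ l0] at this
  have e4 := mul_le_mul_of_nonneg_left hl (show 0 ≤ u * (n : ℝ) ^ (8 / 5 : ℝ) by positivity)
  have e5 : u * (n : ℝ) ^ (8 / 5 : ℝ) * (c / (2 * u) * (n : ℝ) ^ (2 / 5 : ℝ)) =
      c / 2 * (n : ℝ) ^ 2 := by
    rw [← e2]
    field_simp
  have e6 : 0 < c * (n : ℝ) ^ 2 := by positivity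
  linarith

end Pool.Agent.Results.MP_f77c7f_co.Disproof
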